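import Pool.Agent.G02.Stmts

/-!
# Squad G02 (MP_ba5221_nt), row CRI: the descent criterion
-/

set_option autoImplicit false

namespace Pool.Agent.G02.H60

open Pool.Agent.G02

/-- every point with `y ≠ 0` may be replaced by one whose first coordinate is a square, with the
same double -/
theorem move {a b x y : ℚ} (hb : b ≠ 0) (hy : y ≠ 0) (h : y ^ 2 = x * (x ^ 2 + a * x + b))
    (hCl : Cl a b {1}) :
    ∃ s Y : ℚ, Y ≠ 0 ∧ Y ^ 2 = s ^ 2 * (s ^ 4 + a * s ^ 2 + b) ∧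
      (s ^ 4 - b) ^ 2 / (4 * Y ^ 2) = (x ^ 2 - b) ^ 2 / (4 * y ^ 2) := by
  have hx : x ≠ 0 := by
    rintro rfl
    apply hy
    rw [zero_mul] at h
    exact pow_eq_zero_iff (two_ne_zero) |>.1 h
  obtain ⟨s', hs', h1⟩ := hCl x y hx h
  rw [Set.mem_singleton_iff] at hs'
  subst hs'
  rcases h1 with ⟨s, hs⟩ | ⟨r, hr⟩
  · rw [one_mul] at hs
    refine ⟨s, y, hy, ?_, ?_⟩
    · rw [h, hs]
      ring
    · rw [hs]
      have e : (s * s) ^ 2 = s ^ 4 := by ring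
      rw [e]
  · rw [one_mul] at hr
    have e2 : (r / x) ^ 2 = b / x := by
      rw [div_pow, pow_two r, ← hr]
      field_simp
    have e4 : (r / x) ^ 4 = b ^ 2 / x ^ 2 := by
      have : (r / x) ^ 4 = ((r / x) ^ 2) ^ 2 := by ring
      rw [this, e2, div_pow]
    refine ⟨r / x, y * b / x ^ 2, ?_, ?_, ?_⟩
    · exact div_ne_zero (mul_ne_zero hy hb) (pow_ne_zero 2 hx)
    · rw [e2, e4, div_pow, mul_pow, h]
      field_simp
      ring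
    · rw [e4]
      field_simp
      ring

/-- row CRI -/
theorem cri (hH : HlvStmt) : CriStmt := by
  intro a b hb hab hD hCl hCl'
  have hbQ : (b : ℚ) ≠ 0 := by exact_mod_cast hb
  have habQ : (a : ℚ) ^ 2 - 4 * (b : ℚ) ≠ 0 := by exact_mod_cast hab
  have star : ∀ s Y : ℚ, Y ≠ 0 → Y ^ 2 = s ^ 2 * (s ^ 4 + a * s ^ 2 + b) →
      ∃ s₁ Y₁ : ℚ, Y₁ ≠ 0 ∧ Y₁ ^ 2 = s₁ ^ 2 * (s₁ ^ 4 + a * s₁ ^ 2 + b) ∧
        padicValRat 2 (s ^ 2) < 0 ∧
        (padicValRat 2 (s₁ ^ 2) < 0 → padicValRat 2 (s ^ 2) = padicValRat 2 (s₁ ^ 2) - 2) := by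
    intro s Y hY h
    have hs : s ≠ 0 := by
      rintro rfl
      apply hY
      rw [zero_pow two_ne_zero, zero_mul] at h
      exact pow_eq_zero_iff (two_ne_zero) |>.1 h
    obtain ⟨x, y, hy, hxy, he⟩ := hH a b s Y hbQ habQ hs h hCl'
    obtain ⟨s₁, Y₁, hY₁, h₁, hd⟩ := move hbQ hy hxy hCl
    have e1 : (x ^ 2 - (b : ℚ)) ^ 2 / (4 * y ^ 2) = s ^ 2 := by
      rw [he]
      have : (4 : ℚ) * y ^ 2 ≠ 0 := by positivity
      field_simp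
    have h₁' : Y₁ ^ 2 = s₁ ^ 2 * ((s₁ ^ 2) ^ 2 + a * s₁ ^ 2 + b) := by
      rw [h₁]
      ring
    have key := hD (s₁ ^ 2) Y₁ hY₁ h₁'
    have e2 : ((s₁ ^ 2) ^ 2 - (b : ℚ)) ^ 2 / (4 * Y₁ ^ 2) = s ^ 2 := by
      rw [← e1, ← hd]
      ring
    rw [e2] at key
    exact ⟨s₁, Y₁, hY₁, h₁, key.1, key.2⟩
  have claim : ∀ n : ℕ, ∀ s Y : ℚ, Y ≠ 0 → Y ^ 2 = s ^ 2 * (s ^ 4 + a * s ^ 2 + b) →
      padicValRat 2 (s ^ 2) < -(n : ℤ) := by
    intro n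
    induction n with
    | zero =>
      intro s Y hY h
      obtain ⟨_, _, _, _, h1, _⟩ := star s Y hY h
      simpa using h1
    | succ n ih =>
      intro s Y hY h
      obtain ⟨s₁, Y₁, hY₁, h₁, _, h2⟩ := star s Y hY h
      obtain ⟨_, _, _, _, h3, _⟩ := star s₁ Y₁ hY₁ h₁
      have h4 := h2 h3
      have h5 := ih s₁ Y₁ hY₁ h₁
      push_cast
      omega
  intro x y hxy
  by_contra hy
  obtain ⟨s, Y, hY, h, _⟩ := move hbQ hy hxy hCl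
  have h6 := claim (padicValRat 2 (s ^ 2)).natAbs s Y hY h
  omega

end Pool.Agent.G02.H60
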