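import Pool.Agent.G02.StmtsR

/-!
# Squad G02 (MP_ba5221_nt), row QUA: quadratic fields
-/

set_option autoImplicit false

namespace Pool.Agent.G02.H60

open Pool.Agent.G02

/-- row QUA -/
theorem qua : QuaStmt := by
  intro m hm
  have hF : Fact (∀ r : ℚ, r ^ 2 ≠ m + 0 * r) := ⟨by
    intro r hr
    apply hm
    refine ⟨r, ?_⟩
    rw [zero_mul, add_zero] at hr
    rw [← hr]
    ring⟩
  have hmap : ∀ c : ℚ, algebraMap ℚ (QuadraticAlgebra ℚ m 0) c = ⟨c, 0⟩ := by
    intro c
    rw [eq_ratCast]
    rfl
  refine ⟨QuadraticAlgebra ℚ m 0, inferInstance, ?_, inferInstance, ⟨0, 1⟩, ?_⟩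
  · exact algebraRat.charZero _
  · refine ⟨hm, ?_, ?_, ?_⟩
    · rw [hmap, pow_two]
      ext
      · simp
      · simp
    · intro c h
      rw [hmap] at h
      have h2 := congrArg QuadraticAlgebra.im h
      simp at h2
    · rintro c ⟨z, hz⟩
      rw [hmap] at hz
      have h1 := congrArg QuadraticAlgebra.re hz
      have h2 := congrArg QuadraticAlgebra.im hz
      rw [QuadraticAlgebra.re_mul] at h1
      rw [QuadraticAlgebra.im_mul] at h2
      simp only [zero_mul, add_zero] at h1 h2
      have h3 : z.re * z.im = 0 := by linarith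
      rcases mul_eq_zero.1 h3 with h4 | h4
      · right
        refine ⟨m * z.im, ?_⟩
        rw [h1, h4]
        ring
      · left
        refine ⟨z.re, ?_⟩
        rw [h1, h4]
        ring

end Pool.Agent.G02.H60
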