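import Pool.Agent.G02.StmtsR

/-!
# Squad G02 (MP_ba5221_nt), row SEC: the second class
-/

set_option autoImplicit false

namespace Pool.Agent.G02.H60

open Pool.Agent.G02

/-- row SEC -/
theorem sec : SecStmt := by
  intro W e a b hW L _ _ _ β hQ x y s h hs hx z hz
  obtain ⟨hb2, hb4, hb6⟩ := hW
  -- the equation of the point
  have heq : y ^ 2 + W.a₁ * x * y + W.a₃ * y = x ^ 3 + W.a₂ * x ^ 2 + W.a₄ * x + W.a₆ := by
    have h1 := h.1
    rw [WeierstrassCurve.Affine.equation_iff] at h1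
    exact h1
  simp only [WeierstrassCurve.b₂] at hb2
  simp only [WeierstrassCurve.b₄] at hb4
  simp only [WeierstrassCurve.b₆] at hb6
  set w : ℚ := 2 * y + W.a₁ * x + W.a₃ with hw
  have hw2 : w ^ 2 = 4 * (s ^ 2 * (s ^ 4 + a * s ^ 2 + b)) := by
    have hx' : x = e + s ^ 2 := by linarith
    have e1 : w ^ 2 = 4 * x ^ 3 + (W.a₁ ^ 2 + 4 * W.a₂) * x ^ 2 +
        2 * (2 * W.a₄ + W.a₁ * W.a₃) * x + (W.a₃ ^ 2 + 4 * W.a₆) := by
      rw [hw]
      linear_combination 4 * heq
    rw [e1, hb2, hb4, hb6, hx']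
    ring
  set z' : ℚ := a + 2 * s ^ 2 - w / s with hz'
  have hws : (w / s) ^ 2 = 4 * (s ^ 4 + a * s ^ 2 + b) := by
    rw [div_pow, hw2]
    field_simp
  have hzz : z * z' = a ^ 2 - 4 * b := by
    rw [hz, hz']
    linear_combination (-1 : ℚ) * hws
  have hsum : z + z' = 2 * a + 4 * s ^ 2 := by
    rw [hz, hz']
    ring
  have hm0 : a ^ 2 - 4 * b ≠ 0 := by
    intro h0
    apply hQ.nsq
    rw [h0]
    exact ⟨0, by ring⟩
  have hz0 : z ≠ 0 := by
    intro h0
    rw [h0, zero_mul] at hzz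
    exact hm0 hzz.symm
  refine ⟨hz0, ?_, ?_⟩
  · rw [← hzz]
    linear_combination (-(z ^ 2)) * hsum
  · intro c
    have hne : algebraMap ℚ L z - β ≠ 0 := by
      intro h0
      exact hQ.nr z (by rw [← sub_eq_zero]; rw [← neg_sub, h0, neg_zero])
    have hx' : algebraMap ℚ L x = algebraMap ℚ L e + (algebraMap ℚ L s) ^ 2 := by
      have : x = e + s ^ 2 := by linarith
      rw [this, map_add, map_pow]
    have hzz' : algebraMap ℚ L z * algebraMap ℚ L z' = β ^ 2 := by
      rw [← map_mul, hzz, hQ.sq]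
    have hsum' : algebraMap ℚ L z + algebraMap ℚ L z' =
        2 * algebraMap ℚ L a + 4 * (algebraMap ℚ L s) ^ 2 := by
      rw [← map_add, hsum]
      simp only [map_add, map_mul, map_pow, map_ofNat]
    -- `4 z (x - ρ) = (z - β)²`
    have key : 4 * (algebraMap ℚ L z * (algebraMap ℚ L x -
        (algebraMap ℚ L e + (β - algebraMap ℚ L a) / 2))) = (algebraMap ℚ L z - β) ^ 2 := by
      rw [hx']
      linear_combination (-(algebraMap ℚ L z)) * hsum' + hzz'
    set X : L := algebraMap ℚ L x - (algebraMap ℚ L e + (β - algebraMap ℚ L a) / 2) with hX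
    have hzL : algebraMap ℚ L z ≠ 0 := by
      intro h0
      exact hz0 ((map_eq_zero _).1 h0)
    have hX0 : X ≠ 0 := by
      intro h0
      rw [h0, mul_zero, mul_zero] at key
      exact hne ((pow_eq_zero_iff two_ne_zero).1 key.symm)
    change IsSquare (algebraMap ℚ L c * X) ↔ _
    rw [map_mul]
    constructor
    · rintro ⟨r, hr⟩
      refine ⟨r * (algebraMap ℚ L z - β) / (2 * X), ?_⟩
      field_simp
      linear_combination (4 * algebraMap ℚ L z * X) * hr + r ^ 2 * key
    · rintro ⟨r, hr⟩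
      refine ⟨r * (algebraMap ℚ L z - β) / (2 * algebraMap ℚ L z), ?_⟩
      field_simp
      linear_combination (4 * algebraMap ℚ L z * X) * hr + r ^ 2 * key

end Pool.Agent.G02.H60
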